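import Pool.Agent.H838.Hred

/-!
# Kobayashi's conjecture on standard compact forms fails for groups with infinite centre

There is a connected covering group `G` of `SL(2, ℝ) × SL(2, ℝ)` (a connected semisimple Lie group
with infinite cyclic covering kernel) and a closed connected subgroup `H` which is reductive
in `G`, such that `G / H` has a compact Clifford-Klein form, but no closed subgroup `L` of `G` which
is reductive in `G` acts properly and cocompactly on `G / H`.

`H` is the preimage of the diagonal, the covering is the one of class `(1, -2)`, and the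
discrete group is built from a homomorphism of the triangle group `(15, 15, 15)` onto the
triangle group `(5, 5, 5)`, which strictly contracts an equivariant map of hyperbolic planes.
-/

set_option autoImplicit false

namespace Pool.Agent.Results.MP_320961_gt.InfiniteCentre

open Matrix
open scoped MatrixGroups

/-- The Lie algebra of `SL(2, ℝ) × SL(2, ℝ)`: pairs of traceless real two by two matrices. -/
def lieAlg : Submodule ℝ (Matrix (Fin 2) (Fin 2) ℝ × Matrix (Fin 2) (Fin 2) ℝ) where
  carrier := {X | X.1.trace = 0 ∧ X.2.trace = 0}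
  zero_mem' := by simp
  add_mem' := by
    rintro X Y ⟨h1, h2⟩ ⟨h3, h4⟩
    exact ⟨by rw [Prod.fst_add, Matrix.trace_add, h1, h3, add_zero],
      by rw [Prod.snd_add, Matrix.trace_add, h2, h4, add_zero]⟩
  smul_mem' := by
    rintro c X ⟨h1, h2⟩
    exact ⟨by rw [Prod.smul_fst, Matrix.trace_smul, h1, smul_zero],
      by rw [Prod.smul_snd, Matrix.trace_smul, h2, smul_zero]⟩

/-- The adjoint action of `g = (g₁, g₂)` on pairs of matrices, `(g₁ X₁ g₁⁻¹, g₂ X₂ g₂⁻¹)`. -/
def Ad (g : SL(2, ℝ) × SL(2, ℝ)) (X : Matrix (Fin 2) (Fin 2) ℝ × Matrix (Fin 2) (Fin 2) ℝ) :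
    Matrix (Fin 2) (Fin 2) ℝ × Matrix (Fin 2) (Fin 2) ℝ :=
  (g.1.val * X.1 * (g.1⁻¹).val, g.2.val * X.2 * (g.2⁻¹).val)

section
variable {G : Type} [Group G] [TopologicalSpace G]

/-- The adjoint action of the subgroup `L` of `G` on the Lie algebra of `G` is completely
reducible: every invariant subspace has an invariant complement. Here `π` is the covering
homomorphism of `G`, through which `G` acts on its Lie algebra. -/
def AdCompletelyReducible (π : G →* SL(2, ℝ) × SL(2, ℝ)) (L : Subgroup G) : Prop :=
  ∀ V : Submodule ℝ (Matrix (Fin 2) (Fin 2) ℝ × Matrix (Fin 2) (Fin 2) ℝ), V ≤ lieAlg →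
    (∀ g ∈ L, ∀ X ∈ V, Ad (π g) X ∈ V) →
    ∃ V' ≤ lieAlg, (∀ g ∈ L, ∀ X ∈ V', Ad (π g) X ∈ V') ∧ V ⊓ V' = ⊥ ∧ V ⊔ V' = lieAlg

/-- `L` is a reductive subgroup of `G`: closed, with finitely many connected components, and with
completely reducible adjoint action. -/
structure IsReductive (π : G →* SL(2, ℝ) × SL(2, ℝ)) (L : Subgroup G) : Prop where
  closed : IsClosed (L : Set G)
  finite_components : Finite (ConnectedComponents L)
  ad : AdCompletelyReducible π L

/-- `Γ` defines a compact Clifford-Klein form of `G / H`: it is discrete, acts properly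
discontinuously and freely on `G / H`, and the quotient is compact. -/
structure IsCompactForm (H Γ : Subgroup G) : Prop where
  discrete : DiscreteTopology Γ
  proper : ProperlyDiscontinuousSMul Γ (G ⧸ H)
  free : ∀ γ ∈ Γ, ∀ x : G ⧸ H, γ • x = x → γ = 1
  compact : CompactSpace (MulAction.orbitRel.Quotient Γ (G ⧸ H))

/-- `L` acts properly and cocompactly on `G / H`. -/
structure ActsProperlyCocompactly (H L : Subgroup G) : Prop where
  proper : ProperSMul L (G ⧸ H)
  cocompact : CompactSpace (MulAction.orbitRel.Quotient L (G ⧸ H))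

end

open Pool.Agent.H838 Pool.Agent.H838.Gp

lemma lieAlg_eq : lieAlg = sl2.prod sl2 := by
  ext X
  exact Iff.rfl

lemma crg_iff (L : Subgroup Gp) : AdCompletelyReducible pr L ↔ CRG L := by
  unfold AdCompletelyReducible CRG
  rw [lieAlg_eq]
  exact Iff.rfl

lemma infinite_center : Infinite (Subgroup.center Gp) := by
  have hmem : ∀ n : ℤ, zed n ∈ Subgroup.center Gp := by
    intro n
    rw [Subgroup.mem_center_iff]
    intro g
    apply Gp.ext'
    · simp
    · simp
    · rw [Gp.mul_f, Gp.mul_f]
      simp
      ring
  apply Infinite.of_injective (fun n : ℤ => (⟨zed n, hmem n⟩ : Subgroup.center Gp))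
  intro m n h
  have h1 : zed m = zed n := congrArg Subtype.val h
  have h2 : (zed m).f UpperHalfPlane.I UpperHalfPlane.I =
      (zed n).f UpperHalfPlane.I UpperHalfPlane.I := by rw [h1]
  rw [zed_f, zed_f] at h2
  have h3 : (m : ℝ) = n := mul_right_cancel₀ (by positivity) h2
  exact_mod_cast h3

/-- Kobayashi's conjecture fails for a connected semisimple group with infinite centre. -/
theorem result :
    ∃ (G : Type) (_ : Group G) (_ : TopologicalSpace G) (_ : IsTopologicalGroup G)
      (_ : T2Space G) (_ : ConnectedSpace G) (π : G →* SL(2, ℝ) × SL(2, ℝ)) (H : Subgroup G),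
      -- `G` is a connected covering group of `SL(2, ℝ) × SL(2, ℝ)`, with infinite centre
      IsCoveringMap π ∧ Function.Surjective π ∧ Infinite (Subgroup.center G) ∧
      -- `H` is the preimage of the diagonal; it is connected, and reductive in `G`
      (∀ g, g ∈ H ↔ (π g).1 = (π g).2) ∧ IsConnected (H : Set G) ∧ IsReductive π H ∧
      -- `G / H` has a compact Clifford-Klein form
      (∃ Γ : Subgroup G, IsCompactForm H Γ) ∧
      -- no reductive subgroup acts properly and cocompactly on `G / H`: there is no standard one
      (¬ ∃ L : Subgroup G, IsReductive π L ∧ ActsProperlyCocompactly H L) ∧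
      -- even without the condition on components, all such subgroups are discrete
      (∀ L : Subgroup G, IsClosed (L : Set G) → AdCompletelyReducible π L →
        ActsProperlyCocompactly H L → DiscreteTopology L) := by
  refine ⟨Gp, inferInstance, inferInstance, inferInstance, inferInstance, inferInstance, pr, Hs,
    isCoveringMap_pr, pr_surjective, infinite_center, fun g => Iff.rfl, isConnected_Hs, ?_, ?_,
    ?_, ?_⟩
  · refine ⟨isClosed_Hs, ?_, (crg_iff Hs).mpr crg_Hs⟩
    have hc : ConnectedSpace Hs := isConnected_iff_connectedSpace.mp isConnected_Hs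
    infer_instance
  · exact ⟨Gam, discrete_Gam, properlyDiscontinuous_Gam, fun γ hγ x hx => free_Gam hγ x hx,
      cocompact_Gam⟩
  · rintro ⟨L, hL, hp⟩
    exact no_finite ((crg_iff L).mp hL.ad) hp.proper hp.cocompact hL.finite_components
  · intro L _ hcr hp
    exact discrete_of ((crg_iff L).mp hcr) hp.proper hp.cocompact

end Pool.Agent.Results.MP_320961_gt.InfiniteCentre
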