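import Pool.Agent.H838.TMain
import Pool.Agent.H838.TUnim
import Pool.Agent.H838.TLat

/-!
# Compact forms coming from a closed group that acts transitively

Let `G` be a real classical group, `H` a closed unimodular subgroup, and `L` a closed subgroup,
reductive or not, which contains a uniform lattice `Γ` (or is merely unimodular) and acts properly
and transitively on `G / H`. Then there is a closed subgroup `L'` of `G` which acts completely
reducibly on the standard representation, so is reductive in `G`, and which acts properly and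
transitively on `G / H`. It is the image of `L` under a homomorphism with compact kernel, which
is a pointwise limit of conjugations by elements of `G` and maps `Γ` onto a uniform lattice
of `L'`.
-/

set_option autoImplicit false

namespace Pool.Agent.Results.MP_320961_gt.TransitiveHull

open Filter Topology Matrix MeasureTheory

variable {n : ℕ}

/-- The group of all real invertible matrices `g` with `gᵀ J g = J` which commute with all
elements of `S`. -/
def classicalGroup (J : Matrix (Fin n) (Fin n) ℝ) (S : Set (Matrix (Fin n) (Fin n) ℝ)) :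
    Subgroup (GL (Fin n) ℝ) where
  carrier := {g | (g : Matrix (Fin n) (Fin n) ℝ)ᵀ * J * (g : Matrix (Fin n) (Fin n) ℝ) = J ∧
    ∀ s ∈ S, s * (g : Matrix (Fin n) (Fin n) ℝ) = (g : Matrix (Fin n) (Fin n) ℝ) * s}
  one_mem' := (Pool.Agent.H838.T.classicalGroup J S).one_mem
  mul_mem' := (Pool.Agent.H838.T.classicalGroup J S).mul_mem
  inv_mem' := (Pool.Agent.H838.T.classicalGroup J S).inv_mem

/-- `G` is a classical group in standard position: `J` is an orthogonal matrix, symmetric or
skew-symmetric, the set `S` is stable under `s ↦ sᵀ` and `s ↦ J s Jᵀ`, and `G` is a closed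
subgroup of the group `classicalGroup J S`, stable under transposition, such that each element of
the identity component of `classicalGroup J S` acts on `G` by conjugation like an element of the
identity component of `G`. -/
structure IsClassical (J : Matrix (Fin n) (Fin n) ℝ) (S : Set (Matrix (Fin n) (Fin n) ℝ))
    (G : Subgroup (GL (Fin n) ℝ)) : Prop where
  orthogonal : Jᵀ * J = 1
  symmetric : Jᵀ = J ∨ Jᵀ = -J
  stable : ∀ s ∈ S, sᵀ ∈ S ∧ J * s * Jᵀ ∈ S
  le : G ≤ classicalGroup J S
  closed : IsClosed (G : Set (GL (Fin n) ℝ))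
  transpose : ∀ g ∈ G, ∃ g' ∈ G, (g' : Matrix (Fin n) (Fin n) ℝ) =
    (g : Matrix (Fin n) (Fin n) ℝ)ᵀ
  conj : ∀ x ∈ connectedComponent (1 : classicalGroup J S),
    ∃ y ∈ connectedComponent (1 : G), ∀ g ∈ G,
      (x : GL (Fin n) ℝ)⁻¹ * g * x = (y : GL (Fin n) ℝ)⁻¹ * g * y

/-- Some left Haar measure is right invariant. -/
def Unimodular (A : Type*) [Group A] [TopologicalSpace A] : Prop :=
  ∃ μ : @Measure A (borel A), @Measure.IsHaarMeasure A _ _ (borel A) μ ∧
    @Measure.IsMulRightInvariant A (borel A) _ μ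

/-- A discrete subgroup with compact quotient. -/
def IsUniformLattice {A : Type*} [Group A] [TopologicalSpace A] (Γ : Subgroup A) : Prop :=
  DiscreteTopology Γ ∧ CompactSpace (A ⧸ Γ)

/-- Every subspace of `ℝ ^ n` invariant under `Λ` has an invariant complement. -/
def CompletelyReducible (Λ : Subgroup (GL (Fin n) ℝ)) : Prop :=
  ∀ W : Submodule ℝ (Fin n → ℝ),
    (∀ g ∈ Λ, ∀ w ∈ W, (g : Matrix (Fin n) (Fin n) ℝ) *ᵥ w ∈ W) →
    ∃ W' : Submodule ℝ (Fin n → ℝ),
      (∀ g ∈ Λ, ∀ w ∈ W', (g : Matrix (Fin n) (Fin n) ℝ) *ᵥ w ∈ W') ∧ IsCompl W W'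

/-- `L` acts properly and transitively on `G / H`. -/
structure ActsProperlyTransitively {G : Type*} [Group G] [TopologicalSpace G]
    (H L : Subgroup G) : Prop where
  proper : ProperSMul L (G ⧸ H)
  transitive : ∀ x y : G ⧸ H, ∃ l : L, l • x = y

open Pool.Agent.H838

lemma classicalGroup_eq (J : Matrix (Fin n) (Fin n) ℝ) (S : Set (Matrix (Fin n) (Fin n) ℝ)) :
    classicalGroup J S = T.classicalGroup J S := rfl

/-- The group `classicalGroup J S` itself satisfies the conditions put on `G`. -/
lemma isClassical_self {J : Matrix (Fin n) (Fin n) ℝ} {S : Set (Matrix (Fin n) (Fin n) ℝ)}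
    (h1 : Jᵀ * J = 1) (h2 : Jᵀ = J ∨ Jᵀ = -J) (h3 : ∀ s ∈ S, sᵀ ∈ S ∧ J * s * Jᵀ ∈ S) :
    IsClassical J S (classicalGroup J S) := by
  have h : T.Std J S := ⟨h1, h2, h3⟩
  refine ⟨h1, h2, h3, le_rfl, ?_, ?_, fun x hx => ⟨x, hx, fun _ _ => rfl⟩⟩
  · have e : ((classicalGroup J S : Subgroup (GL (Fin n) ℝ)) : Set (GL (Fin n) ℝ)) =
        {g : GL (Fin n) ℝ | (g : Matrix (Fin n) (Fin n) ℝ)ᵀ * J *
          (g : Matrix (Fin n) (Fin n) ℝ) = J} ∩
        ⋂ s ∈ S, {g : GL (Fin n) ℝ | s * (g : Matrix (Fin n) (Fin n) ℝ) =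
          (g : Matrix (Fin n) (Fin n) ℝ) * s} := by
      ext g
      simp only [Set.mem_inter_iff, Set.mem_iInter]
      exact Iff.rfl
    rw [e]
    refine IsClosed.inter ?_ (isClosed_biInter fun s _ => ?_)
    · exact isClosed_eq (((Units.continuous_val.matrix_transpose).mul continuous_const).mul
        Units.continuous_val) continuous_const
    · exact isClosed_eq (continuous_const.mul Units.continuous_val)
        (Units.continuous_val.mul continuous_const)
  · intro g hg
    have hg1 : (g : Matrix (Fin n) (Fin n) ℝ) * J * (g : Matrix (Fin n) (Fin n) ℝ)ᵀ = J :=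
      h.g_J_gT hg.1
    have e1 : (g : Matrix (Fin n) (Fin n) ℝ)ᵀ *
        ((g⁻¹ : GL (Fin n) ℝ) : Matrix (Fin n) (Fin n) ℝ)ᵀ = 1 := by
      rw [← Matrix.transpose_mul, g.inv_mul, Matrix.transpose_one]
    refine ⟨⟨(g : Matrix (Fin n) (Fin n) ℝ)ᵀ,
      ((g⁻¹ : GL (Fin n) ℝ) : Matrix (Fin n) (Fin n) ℝ)ᵀ, e1, mul_eq_one_comm.mp e1⟩,
      ⟨?_, fun s hs => ?_⟩, rfl⟩
    · show ((g : Matrix (Fin n) (Fin n) ℝ)ᵀ)ᵀ * J * (g : Matrix (Fin n) (Fin n) ℝ)ᵀ = J
      rw [Matrix.transpose_transpose]
      exact hg1
    · show s * (g : Matrix (Fin n) (Fin n) ℝ)ᵀ = (g : Matrix (Fin n) (Fin n) ℝ)ᵀ * s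
      have := congrArg Matrix.transpose (hg.2 _ (h3 s hs).1)
      rw [Matrix.transpose_mul, Matrix.transpose_mul, Matrix.transpose_transpose] at this
      exact this.symm

/-- If a closed subgroup `L` of a classical group `G` has a uniform lattice, or is just
unimodular, and acts properly and transitively on `G / H`, where `H` is closed and unimodular,
then so does a closed subgroup `L'` acting completely reducibly on `ℝ ^ n`. -/
theorem result {J : Matrix (Fin n) (Fin n) ℝ} {S : Set (Matrix (Fin n) (Fin n) ℝ)}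
    {G : Subgroup (GL (Fin n) ℝ)} (hG : IsClassical J S G) {H L : Subgroup G}
    (hH : IsClosed (H : Set G)) (hHu : Unimodular H) (hL : IsClosed (L : Set G))
    (hLu : Unimodular L ∨ ∃ Γ : Subgroup L, IsUniformLattice Γ)
    (hLH : ActsProperlyTransitively H L) :
    ∃ (L' : Subgroup G) (φ : L →* L') (g : ℕ → G),
      IsClosed (L' : Set G) ∧ CompletelyReducible (L'.map G.subtype) ∧
      ActsProperlyTransitively H L' ∧
      -- `φ` is a continuous surjective homomorphism with compact kernel, and a limit of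
      -- conjugations by elements of `G`
      Continuous φ ∧ Function.Surjective φ ∧ IsCompact (φ.ker : Set L) ∧
      (∀ l : L, Tendsto (fun k => (g k)⁻¹ * (l : G) * g k) atTop (𝓝 (φ l : G))) ∧
      -- it maps uniform lattices of `L` onto uniform lattices of `L'`, isomorphically if they
      -- are torsion free
      ∀ Γ : Subgroup L, IsUniformLattice Γ → IsUniformLattice (Γ.map φ) ∧
        ((∀ γ ∈ Γ, IsOfFinOrder γ → γ = 1) → Set.InjOn φ Γ) := by
  have h : T.Std J S := ⟨hG.orthogonal, hG.symmetric, hG.stable⟩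
  have hle : G ≤ T.classicalGroup J S := hG.le
  have hemb := T.isClosedEmbedding_mat h.orth hle hG.closed
  have hT2 : T2Space G := hemb.isEmbedding.t2Space
  have hlc : LocallyCompactSpace G := hemb.locallyCompactSpace
  have hsc : SecondCountableTopology G := hemb.isEmbedding.secondCountableTopology
  have hlcL : LocallyCompactSpace L := hL.isClosedEmbedding_subtypeVal.locallyCompactSpace
  have hscL : SecondCountableTopology L :=
    TopologicalSpace.Subtype.secondCountableTopology (L : Set G)
  have hGu : T.Unimod G := T.unimod_of_transpose h hle hG.closed hG.transpose hG.conj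
  have hLu' : T.Unimod L := by
    rcases hLu with hu | ⟨Γ, hd, hc⟩
    · exact hu
    · exact T.Unimod.of_lattice Γ
  obtain ⟨g, phi, hg, hphi, hker, hran, hcr, hprop, htrans, hpm⟩ :=
    T.main_unimodular h hle hG.closed hGu hG.conj hH hHu hL hLu' hLH.proper hLH.transitive
  have hlcR : LocallyCompactSpace phi.range :=
    hran.isClosedEmbedding_subtypeVal.locallyCompactSpace
  have hpm' : IsProperMap phi.rangeRestrict := by
    rw [isProperMap_iff_isCompact_preimage]
    refine ⟨hphi.subtype_mk _, fun K hK => ?_⟩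
    have h1 := hpm.isCompact_preimage (hK.image continuous_subtype_val)
    refine h1.of_isClosed_subset (hK.isClosed.preimage (hphi.subtype_mk _)) ?_
    intro l hl
    exact ⟨phi.rangeRestrict l, hl, rfl⟩
  refine ⟨phi.range, phi.rangeRestrict, g, hran, hcr, ⟨hprop, htrans⟩, hphi.subtype_mk _,
    phi.rangeRestrict_surjective, ?_, hg, ?_⟩
  · rw [MonoidHom.ker_rangeRestrict]
    exact hker
  · rintro Γ ⟨hd, hc⟩
    exact ⟨⟨T.discrete_image hpm' hd,
      T.cocompact_image (hphi.subtype_mk _) phi.rangeRestrict_surjective hc⟩,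
      fun ht => T.injOn_of_torsionFree hpm' hd ht⟩

end Pool.Agent.Results.MP_320961_gt.TransitiveHull
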